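import Pool.Agent.X280.EB.Power

/-!
# Powers of the L-functions of all Chow motives up to the edge of absolute convergence

Let `M` be any Chow motive over `ℚ` and `H = H^i(M)`, of weight `w = i` and dimension `r`.  Nothing is
known about a continuation of `L(H, s)` beyond the half plane `Re s > w/2 + 1` of absolute convergence;
at the distance `ε` from the edge line one has only the trivial bound `|L|^{±1} ≤ ζ(1 + ε)^r`, of size
`ε^{-r}`.  We prove: for every complex `z` with `|z| r < 1` the powers `L^z = exp(z log L)` have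
boundary values on the whole edge line in the local `L¹` sense, with a rate of convergence that depends
on `|z| r` only (not on the motive, not on the height), and the range of `z` is sharp.

`α p j`, `j < r`, are the eigenvalues of Frobenius at `p`, and `0` at the finitely many primes of bad
reduction (or the eigenvalues on the inertia invariants, if they have weights at most `w`); `IsSystem`
says that `|α p j| ≤ p^{w/2}`, a theorem of Deligne.  `Lf α` is the Euler product, `logLf α` its
logarithm, the sum of the principal values, and `edgePt w ε t = w/2 + 1 + ε + it`.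
-/

set_option autoImplicit false

namespace Pool.Agent.Results.MP_148101_nt.EdgePowers

open MeasureTheory Filter Topology Pool.Agent.X280.EB

/-- There are functions `C` and `Om`, `Om(ε) → 0` for `ε → 0`, such that for all motives there is a
function `g` on the edge line, the boundary value of `log L`, such that for all heights `τ` and all
distances `ε > 0`:
1. the mean square of `log L(w/2 + 1 + ε + it) - g(t)` over `[τ, τ + 1]` is at most `r² Om(ε)`, and
   `log L(w/2 + 1 + ε + it) → g(t)` for almost all `t`;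
2. for all complex `z` with `|z| r < 1`, the integrals of `|L^z| = |exp(z log L)|` over `[τ, τ + 1]` are
   at most `C(|z| r)` at the distance `ε`, and also on the edge line;
3. for all complex `z` with `|z| r < 1`, the integral of `|L^z - exp(z g)|` over `[τ, τ + 1]` is at most
   `C(|z| r) Om(ε)^{(1 - |z| r) / 2}`.
The range of `z` cannot be enlarged: for `L = ζ(s)^r` and `z = 1/r` the integrals in 2. over `[0, 1]` are
unbounded for `ε → 0`. -/
theorem result :
    (∃ C Om : ℝ → ℝ, (∀ ε, 0 < ε → 0 < Om ε) ∧ Tendsto Om (𝓝[>] 0) (𝓝 0) ∧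
      ∀ (w : ℤ) (r : ℕ) (α : ℕ → Fin r → ℂ), IsSystem w α →
      (∀ ε t : ℝ, 0 < ε → Lf α (edgePt w ε t) = Complex.exp (logLf α (edgePt w ε t))) ∧
      ∃ g : ℝ → ℂ, Measurable g ∧
        (∀ᵐ t : ℝ, Tendsto (fun ε => logLf α (edgePt w ε t)) (𝓝[>] 0) (𝓝 (g t))) ∧
        (∀ ε τ : ℝ, 0 < ε → ∫⁻ t in Set.Icc τ (τ + 1),
          ENNReal.ofReal (‖logLf α (edgePt w ε t) - g t‖ ^ 2) ≤ ENNReal.ofReal (r ^ 2 * Om ε)) ∧
        ∀ z : ℂ, ‖z‖ * r < 1 → ∀ τ : ℝ,
          (∀ ε : ℝ, 0 < ε → ∫⁻ t in Set.Icc τ (τ + 1),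
            ENNReal.ofReal ‖Complex.exp (z * logLf α (edgePt w ε t))‖ ≤
              ENNReal.ofReal (C (‖z‖ * r))) ∧
          ∫⁻ t in Set.Icc τ (τ + 1), ENNReal.ofReal ‖Complex.exp (z * g t)‖ ≤
            ENNReal.ofReal (C (‖z‖ * r)) ∧
          ∀ ε : ℝ, 0 < ε → ∫⁻ t in Set.Icc τ (τ + 1),
            ENNReal.ofReal ‖Complex.exp (z * logLf α (edgePt w ε t)) - Complex.exp (z * g t)‖ ≤
              ENNReal.ofReal (C (‖z‖ * r) * Om ε ^ ((1 - ‖z‖ * r) / 2))) ∧
    ∀ r : ℕ, 1 ≤ r → IsSystem 0 (fun _ (_ : Fin r) => 1) ∧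
      (∀ s : ℂ, 1 < s.re → Lf (fun _ (_ : Fin r) => 1) s = riemannZeta s ^ r) ∧
      ∀ B : ℝ, ∃ ε : ℝ, 0 < ε ∧
        B < ∫ t in (0 : ℝ)..1, ‖Lf (fun _ (_ : Fin r) => 1) (edgePt 0 ε t)‖ ^ ((1 : ℝ) / r) := by
  obtain ⟨C, Om, hOm0, hOm, h⟩ := edge_power
  exact ⟨⟨C, Om, hOm0, hOm, fun w r α hα => ⟨fun ε t hε => Lf_eq hα hε t, h w r α hα⟩⟩,
    fun r hr => ⟨(sharp r hr).1, fun s hs => Lf_one r hs, (sharp r hr).2⟩⟩

end Pool.Agent.Results.MP_148101_nt.EdgePowers
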