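import Pool.Agent.X288.CX.MotThm

/-!
# Tensor products of an arbitrary Chow motive with a newform and all Artin motives

Let `M` be any Chow motive over `ℚ` and `H = H^i(M)`, of dimension `r`.  Let `f` be a newform of any
weight `k ≥ 1`, level and nebentypus; for `k ≥ 2` it has a Chow motive (Scholl), and so have the
representations `ρ` of `Gal(ℚ̄/ℚ)` with finite image.  Nothing is known about the `L`-functions
`L(H ⊗ f ⊗ ρ, s)` to the left of the line `Re s = w/2 + 1`, `w` the weight, at the edge of the half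
plane of absolute convergence; and even on this line their zeros and poles are not known, not even for
`H = ℚ(0)`, as `ρ` need not be modular.  The theorem bounds `log |L(H ⊗ f ⊗ ρ, s)|` near the line, and
with it the orders of all meromorphic continuations to neighbourhoods of points of the line, for all `ρ`
and all points together: **the sum of the squares of the orders is at most `r²`.**  (The rank of `H ⊗ f`
is `2r`, and for an arbitrary motive of rank `2r` the bound is `(2r)²`.)  For `H = ℚ(0)`: among all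
irreducible `ρ` and all points of the line there is at most one pair with a zero or a pole of
`L(f ⊗ ρ, s)`, it is simple, and `dim ρ ≤ 2`.

The proof uses the theorem of Rankin and Selberg for `f`, Deligne's theorem (as part of the definitions
of a motive and of a newform), Chebotarev's theorem with heights, and the orthogonality of characters.
-/

set_option autoImplicit false

namespace Pool.Agent.Results.MP_148101_nt.NewformTensors

open Complex Filter Topology NumberField IsDedekindDomain Polynomial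
open MatrixGroups CongruenceSubgroup
open UpperHalfPlane hiding I

/-- The absolute Galois group of `ℚ`. -/
abbrev GalQ : Type := Gal(AlgebraicClosure ℚ/ℚ)

/-- The primes of `ℚ`, as prime ideals of its ring of integers. -/
abbrev Primes : Type := HeightOneSpectrum (𝓞 ℚ)

/-- The prime number. -/
noncomputable def nrm (v : Primes) : ℕ := Ideal.absNorm v.asIdeal

/-- The cohomology `H = H^i(M)` of a motive `M` over `ℚ`, as far as the Frobenius eigenvalues at almost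
all primes are concerned: `frob p` are the eigenvalues of the geometric Frobenius at `p`, and they have
absolute value `p^{weight/2}`.  By the theorem of Deligne every Chow motive over `ℚ` and every integer `i`
give such data, for every choice of the auxiliary primes `ℓ_p`. -/
structure Motive where
  weight : ℤ
  rank : ℕ
  frob : Primes → Fin rank → ℂ
  pure : ∀ᶠ p in cofinite, ∀ j, ‖frob p j‖ = (nrm p : ℝ) ^ ((weight : ℝ) / 2)

/-- `f` has the properties of a newform of weight `k`, level `N` and nebentypus `ψ`: it transforms under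
`Γ₀(N)` with `ψ`, its coefficients `a(n)` satisfy `a(1) = 1`, `a(m n) = a(m) a(n)` for coprime `m`, `n`,
`a(p^{j+2}) = a(p) a(p^{j+1}) - ψ(p) p^{k-1} a(p^j)`, and for the primes `p ∤ N` they satisfy
`conj a(p) = conj ψ(p) a(p)` and `|a(p)| ≤ 2 p^{(k-1)/2}`. -/
structure IsNewform (N : ℕ) (k : ℤ) (ψ : DirichletCharacter ℂ N)
    (f : CuspForm (Gamma1 N : Subgroup (GL (Fin 2) ℝ)) k) : Prop where
  neb : ∀ γ : SL(2, ℤ), γ ∈ Gamma0 N → ∀ τ : ℍ,
    f (γ • τ) = ψ ((γ 1 1 : ℤ) : ZMod N) * (denom γ τ) ^ k * f τ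
  one : (qExpansion 1 f).coeff 1 = 1
  mul : ∀ m n : ℕ, Nat.Coprime m n → (qExpansion 1 f).coeff (m * n) =
    (qExpansion 1 f).coeff m * (qExpansion 1 f).coeff n
  pow : ∀ p j : ℕ, p.Prime → (qExpansion 1 f).coeff (p ^ (j + 2)) =
    (qExpansion 1 f).coeff p * (qExpansion 1 f).coeff (p ^ (j + 1)) -
      ψ (p : ZMod N) * (p : ℂ) ^ (k - 1) * (qExpansion 1 f).coeff (p ^ j)
  conj : ∀ p : ℕ, p.Prime → ¬ p ∣ N → (starRingEnd ℂ) ((qExpansion 1 f).coeff p) =
    (starRingEnd ℂ) (ψ (p : ZMod N)) * (qExpansion 1 f).coeff p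
  bound : ∀ p : ℕ, p.Prime → ¬ p ∣ N →
    ‖(qExpansion 1 f).coeff p‖ ≤ 2 * (p : ℝ) ^ (((k : ℝ) - 1) / 2)

/-- `σ` is a Frobenius element at `p`: there is a maximal ideal `Q` above `p` of the ring of all
algebraic integers with `σ x ≡ x ^ p` modulo `Q` for all `x`. -/
def IsFrobenius (p : Primes) (σ : GalQ) : Prop :=
  ∃ Q : Ideal (𝓞 (AlgebraicClosure ℚ)), Q.IsMaximal ∧
    Q.comap (algebraMap (𝓞 ℚ) (𝓞 (AlgebraicClosure ℚ))) = p.asIdeal ∧
    ∀ x : 𝓞 (AlgebraicClosure ℚ), σ • x - x ^ nrm p ∈ Q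

/-- `ρ` is an Artin representation: it is trivial on an open subgroup of `Gal(ℚ̄/ℚ)`. -/
def IsArtin {n : ℕ} (ρ : Representation ℂ GalQ (Fin n → ℂ)) : Prop :=
  ∃ U : Subgroup GalQ, IsOpen (U : Set GalQ) ∧ ∀ u ∈ U, ρ u = 1

/-- The polynomials `B p` are the Euler factors of `H ⊗ f ⊗ ρ` at all but finitely many primes `p`:
`B_p(z) = ∏_j det(1 - a_p α_j z ρ(Frob_p⁻¹) + ψ(p) p^{k-1} α_j² z² ρ(Frob_p⁻¹)²)`, `α_j` the
eigenvalues of Frobenius on `H`. -/
def IsEulerFactor (H : Motive) {N : ℕ} {k : ℤ} (ψ : DirichletCharacter ℂ N)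
    (f : CuspForm (Gamma1 N : Subgroup (GL (Fin 2) ℝ)) k) {n : ℕ}
    (ρ : Representation ℂ GalQ (Fin n → ℂ)) (B : Primes → ℂ[X]) : Prop :=
  ∀ᶠ p in cofinite, ∀ σ : GalQ, IsFrobenius p σ → ∀ z : ℂ,
    (B p).eval z = ∏ j, LinearMap.det (1 -
      ((qExpansion 1 f).coeff (nrm p) * H.frob p j * z) • ρ σ⁻¹ +
      (ψ (nrm p : ZMod N) * (nrm p : ℂ) ^ (k - 1) * H.frob p j ^ 2 * z ^ 2) • (ρ σ⁻¹) ^ 2)

/-- The Euler product `∏_p B_p(p^{-s})⁻¹`. -/
noncomputable def eulerProduct (B : Primes → ℂ[X]) (s : ℂ) : ℂ :=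
  ∏' p : Primes, ((B p).eval ((nrm p : ℂ) ^ (-s)))⁻¹

/-- The point of the edge line with imaginary part `τ`, for an `L`-function of weight `w`. -/
noncomputable def edge (w : ℤ) (τ : ℝ) : ℂ := (w : ℂ) / 2 + 1 + τ * I

/-- `log |L(w/2 + 1 + iτ + ε)| / log (1/ε)`, which tends to minus the order of the function at
`w/2 + 1 + iτ` if there is a meromorphic continuation to a neighbourhood. -/
noncomputable def size (w : ℤ) (B : Primes → ℂ[X]) (τ ε : ℝ) : ℝ :=
  Real.log ‖eulerProduct B (edge w τ + ε)‖ / Real.log (1 / ε)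

open Classical in
/-- `⟨k, l⟩`: the dimension of `Hom(ρ_k, ρ_l)` if `τ_k = τ_l`, and `0` otherwise. -/
noncomputable def pairing {κ : Type} {n : κ → ℕ}
    (ρ : ∀ l, Representation ℂ GalQ (Fin (n l) → ℂ)) (τ : κ → ℝ) (k l : κ) : ℝ :=
  if τ k = τ l then (Module.finrank ℂ ((ρ k).IntertwiningMap (ρ l)) : ℝ) else 0

/-- **Tensor products of an arbitrary motive with a newform and all Artin representations, on the edge.**

Let `H` be the cohomology of a motive over `ℚ` of rank `r`, `f` a newform of weight `k ≥ 1`, and for `l`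
in a finite set let `ρ_l` be an Artin representation of `Gal(ℚ̄/ℚ)` of dimension `n_l`, `τ_l ∈ ℝ`,
`s_l = w/2 + 1 + iτ_l` with the weight `w = weight(H) + k - 1`, and `L_l` the Euler product of
`H ⊗ f ⊗ ρ_l` with arbitrary polynomials, not zero at `p^{-s_l}`, as factors at finitely many primes.
Write `x_l(ε) = log |L_l(s_l + ε)| / log(1/ε)`.

1. `L_l(s_l + ε) ≠ 0` for small `ε > 0`.
2. (In 2., 3. and 4. nothing is assumed about continuation.)  For all `C` and `η > 0` and all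
sufficiently small `ε > 0`: `(∑_l c_l x_l(ε))² ≤ r² ∑_{l,l'} c_l c_{l'} ⟨l, l'⟩ + η` for all real `c_l`,
`|c_l| ≤ C`.
3. If the `ρ_l` are irreducible, and pairwise inequivalent for equal heights, then
`∑_l x_l(ε)² ≤ r² + η` for all small `ε > 0`.
4. If `r > 0`, `ρ_l` is irreducible and `n_l ≥ 3`, then there is an `A < r` with `|x_l(ε)| ≤ A` for all
small `ε > 0`.
5. If the `L_l` have meromorphic continuations to neighbourhoods of the points `s_l`, then these have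
finite orders `m_l` at `s_l`, and
* `(∑_l c_l m_l)² ≤ r² ∑_{l,l'} c_l c_{l'} ⟨l, l'⟩` for all real `c_l`;
* `∑_l m_l² ≤ r²` if the `ρ_l` are irreducible, and pairwise inequivalent for equal heights;
* `|m_l| < r` if `r > 0`, `ρ_l` is irreducible and `n_l ≥ 3`; so `m_l = 0` for `r = 1`. -/
theorem result (N : ℕ) [NeZero N] (k : ℤ) (hk : 1 ≤ k) (ψ : DirichletCharacter ℂ N)
    (f : CuspForm (Gamma1 N : Subgroup (GL (Fin 2) ℝ)) k) (hf : IsNewform N k ψ f) (H : Motive)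
    (κ : Type) [Fintype κ] (n : κ → ℕ) (ρ : ∀ l, Representation ℂ GalQ (Fin (n l) → ℂ))
    (τ : κ → ℝ) (B : κ → Primes → ℂ[X]) (hρ : ∀ l, IsArtin (ρ l))
    (hB : ∀ l, IsEulerFactor H ψ f (ρ l) (B l))
    (hB0 : ∀ l, ∀ p, (B l p).eval ((nrm p : ℂ) ^ (-(edge (H.weight + k - 1) (τ l)))) ≠ 0) :
    (∀ l, ∀ᶠ ε : ℝ in 𝓝[>] 0, eulerProduct (B l) (edge (H.weight + k - 1) (τ l) + ε) ≠ 0) ∧
    (∀ C η : ℝ, 0 < η → ∀ᶠ ε : ℝ in 𝓝[>] 0, ∀ c : κ → ℝ, (∀ l, |c l| ≤ C) →
      (∑ l, c l * size (H.weight + k - 1) (B l) (τ l) ε) ^ 2 ≤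
        (H.rank : ℝ) ^ 2 * (∑ l, ∑ l', c l * c l' * pairing ρ τ l l') + η) ∧
    ((∀ l, (ρ l).IsIrreducible) →
      (∀ l l', l ≠ l' → τ l = τ l' → IsEmpty ((ρ l).Equiv (ρ l'))) →
      ∀ η : ℝ, 0 < η → ∀ᶠ ε : ℝ in 𝓝[>] 0,
        ∑ l, size (H.weight + k - 1) (B l) (τ l) ε ^ 2 ≤ (H.rank : ℝ) ^ 2 + η) ∧
    (0 < H.rank → ∀ l, (ρ l).IsIrreducible → 3 ≤ n l →
      ∃ A : ℝ, A < H.rank ∧ ∀ᶠ ε : ℝ in 𝓝[>] 0, |size (H.weight + k - 1) (B l) (τ l) ε| ≤ A) ∧
    (∀ Λ : κ → ℂ → ℂ, (∀ l, MeromorphicAt (Λ l) (edge (H.weight + k - 1) (τ l)) ∧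
      ∀ᶠ s in 𝓝 (edge (H.weight + k - 1) (τ l)),
        (edge (H.weight + k - 1) (τ l)).re < s.re → Λ l s = eulerProduct (B l) s) →
      ∃ m : κ → ℤ,
        (∀ l, meromorphicOrderAt (Λ l) (edge (H.weight + k - 1) (τ l)) = m l) ∧
        (∀ c : κ → ℝ, (∑ l, c l * m l) ^ 2 ≤
          (H.rank : ℝ) ^ 2 * ∑ l, ∑ l', c l * c l' * pairing ρ τ l l') ∧
        ((∀ l, (ρ l).IsIrreducible) →
          (∀ l l', l ≠ l' → τ l = τ l' → IsEmpty ((ρ l).Equiv (ρ l'))) →
          ∑ l, (m l) ^ 2 ≤ (H.rank : ℤ) ^ 2) ∧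
        (0 < H.rank → ∀ l, (ρ l).IsIrreducible → 3 ≤ n l → |m l| < H.rank)) := by
  have hNf : X288.CX.Newf N k ψ f :=
    { neb := hf.neb
      one := hf.one
      mul := hf.mul
      pow := hf.pow
      conj := hf.conj }
  have hbd : ∀ p : ℕ, p.Prime → ¬ p ∣ N → ‖W388.lamC f p‖ ≤ 2 := by
    intro p hp hpN
    have h := hf.bound p hp hpN
    have hp0 : (0 : ℝ) < p := by exact_mod_cast hp.pos
    have hP0 : 0 < (p : ℝ) ^ (((k : ℝ) - 1) / 2) := Real.rpow_pos_of_pos hp0 _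
    unfold W388.lamC
    rw [norm_div, Complex.norm_real, Real.norm_eq_abs, abs_of_pos hP0, div_le_iff₀ hP0]
    exact h
  obtain ⟨β, hβ⟩ := X288.CX.exists_sat hNf hbd
  set w : ℝ := (H.weight : ℝ) / 2 with hw
  set W : ℝ := w + ((k : ℝ) - 1) / 2 with hW
  have hα : ∀ᶠ v in cofinite, ∀ j, ‖X288.CX.tw H.frob β v j‖ = (W540.BE.nm ℚ v : ℝ) ^ W :=
    X288.CX.norm_tw (N := N) H.pure fun p hp hpN => (hβ p hp hpN).2
  have hsec := X288.CX.sec_tw (F := ℚ) (w := w) (α := H.frob) hk hNf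
    (fun p hp hpN => ⟨(hβ p hp hpN).1.1, (hβ p hp hpN).2⟩) hbd
  rw [X288.L2.finrank_QQ, mul_one] at hsec
  have hB' : ∀ l, ∀ᶠ v in cofinite, ∀ σ : W401.Cheb.GK ℚ, W401.Cheb.IsFrob v σ → ∀ z : ℂ,
      (B l v).eval z = ∏ j, LinearMap.det (1 - (X288.CX.tw H.frob β v j * z) • ρ l σ⁻¹) := by
    intro l
    filter_upwards [hB l, X288.CX.ev_level (F := ℚ) (N := N)] with v h1 h2 σ hσ z
    rw [h1 σ hσ z]
    have e1 := X288.CX.prod_tw (R := H.rank) (g := fun (i : Fin H.rank) (e : Fin 2) =>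
      LinearMap.det (1 - (H.frob v i * (β (H921R2.TatePole.below v : ℕ) e) ^
        H921R2.TatePole.deg v * z) • ρ l σ⁻¹))
    refine Eq.trans ?_ e1.symm
    refine Finset.prod_congr rfl fun j _ => ?_
    rw [X288.CX.deg_QQ, pow_one, pow_one, X288.CX.det_pair]
    obtain ⟨⟨hs, hp⟩, -⟩ := hβ _ (H921R2.TatePole.below v).2 h2
    rw [X288.CX.below_QQ v] at hs hp
    have e2 : (H921R2.TatePole.below v : ℕ) = nrm v := X288.CX.below_QQ v
    rw [e2]
    have e3 : nrm v = Ideal.absNorm v.asIdeal := rfl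
    rw [← e3] at hs hp
    rw [← hs, ← hp]
    congr 3
    · congr 1
      ring
    · ring
  have hs : ∀ x : ℝ, ((W : ℂ) + 1 + x * I) = edge (H.weight + k - 1) x := by
    intro x
    rw [hW, hw]
    unfold edge
    push_cast
    ring
  have hB0' : ∀ l, ∀ v, (B l v).eval (((W540.BE.nm ℚ v : ℕ) : ℂ) ^
      (-((W : ℂ) + 1 + τ l * I : ℂ))) ≠ 0 := by
    intro l v
    rw [hs]
    exact hB0 l v
  have hL : ∀ l, ∀ s : ℂ, W + 1 < s.re → eulerProduct (B l) s =
      ∏' v, ((B l v).eval (((W540.BE.nm ℚ v : ℕ) : ℂ) ^ (-s)))⁻¹ := fun l s _ => rfl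
  have hx : ∀ l ε, W353.L1.xs W τ (fun l => eulerProduct (B l)) l ε =
      size (H.weight + k - 1) (B l) (τ l) ε := by
    intro l ε
    unfold W353.L1.xs size
    rw [hs]
  have hne0 : ∀ l, ∀ᶠ ε : ℝ in 𝓝[>] 0,
      eulerProduct (B l) (edge (H.weight + k - 1) (τ l) + ε) ≠ 0 := by
    intro l
    have h4 := X288.CX.neC W _ hα ρ hρ τ B hB' hB0' (fun l => eulerProduct (B l)) hL l
    simp only [hs] at h4
    exact h4
  have hgram : ∀ C η : ℝ, 0 < η → ∀ᶠ ε : ℝ in 𝓝[>] 0, ∀ c : κ → ℝ, (∀ l, |c l| ≤ C) →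
      (∑ l, c l * size (H.weight + k - 1) (B l) (τ l) ε) ^ 2 ≤
        (H.rank : ℝ) ^ 2 * (∑ l, ∑ l', c l * c l' * pairing ρ τ l l') + η := by
    intro C η hη
    have h4 := X288.CX.gram_allC W _ hα ρ hρ τ B hB' hB0' (fun l => eulerProduct (B l)) hL
      (sq_nonneg _) hsec C hη
    simp only [hx] at h4
    exact h4
  have hdisj : (∀ l, (ρ l).IsIrreducible) →
      (∀ l l', l ≠ l' → τ l = τ l' → IsEmpty ((ρ l).Equiv (ρ l'))) →
      ∀ η : ℝ, 0 < η → ∀ᶠ ε : ℝ in 𝓝[>] 0,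
        ∑ l, size (H.weight + k - 1) (B l) (τ l) ε ^ 2 ≤ (H.rank : ℝ) ^ 2 + η := by
    intro hirr hne η hη
    have h4 := X288.CX.disj_allC W _ hα ρ hρ τ B hB' hB0' (fun l => eulerProduct (B l)) hL
      (sq_nonneg _) hsec hirr hne hη
    simp only [hx] at h4
    exact h4
  have hstrict : 0 < H.rank → ∀ l, (ρ l).IsIrreducible → 3 ≤ n l →
      ∃ A : ℝ, A < H.rank ∧ ∀ᶠ ε : ℝ in 𝓝[>] 0,
        |size (H.weight + k - 1) (B l) (τ l) ε| ≤ A := by
    intro hr l hl h3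
    have hr0 : (0 : ℝ) < H.rank := by exact_mod_cast hr
    have h4 := X288.CX.strict_scaled W _ hα ρ hρ τ B hB' hB0' (fun l => eulerProduct (B l)) hL
      hr0 hsec hl (by
        have h5 : (3 : ℝ) ≤ n l := by exact_mod_cast h3
        have h6 : ((H.rank * 2 : ℕ) : ℝ) / H.rank = 2 := by
          push_cast
          field_simp
        rw [h6]
        linarith)
    simp only [hx] at h4
    exact h4
  refine ⟨hne0, hgram, hdisj, hstrict, fun Λ hΛ => ?_⟩
  have hord : ∀ l, ∃ m : ℤ, meromorphicOrderAt (Λ l) (edge (H.weight + k - 1) (τ l)) = m ∧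
      Tendsto (size (H.weight + k - 1) (B l) (τ l)) (𝓝[>] 0) (𝓝 (-(m : ℝ))) := fun l =>
    X288.CX.order_exists (hΛ l).1 (hΛ l).2 (hne0 l)
  choose m hm1 hm2 using hord
  refine ⟨m, hm1, X288.CX.gram_orders hm2
    (G := fun c => (H.rank : ℝ) ^ 2 * ∑ l, ∑ l', c l * c l' * pairing ρ τ l l') hgram,
    fun hirr hne => ?_, fun hr l hl h3 => ?_⟩
  · have h5 := X288.CX.sq_orders hm2 (hdisj hirr hne)
    exact_mod_cast h5
  · obtain ⟨A, hA, h4⟩ := hstrict hr l hl h3
    have h5 := lt_of_le_of_lt (X288.CX.abs_orders hm2 h4) hA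
    exact_mod_cast h5

end Pool.Agent.Results.MP_148101_nt.NewformTensors
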