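import Pool.Agent.X298.HC.GMain

/-!
# The edge line of `L(M ⊗ M', s)`, `M` any Chow motive, `M'` with potentially abelian cohomology

`M` is one cohomology group of an arbitrary Chow motive over a number field `K` (for the problem,
`K = ℚ`); nothing is known about the continuation of its `L`-function beyond the half plane of absolute
convergence.  `M'` runs through the cohomology groups of motives over `K` with potentially abelian
cohomology: the trace of Frobenius is `q_v^{w'/2} Tr(Frob_v | ρ)` for a virtual representation `ρ` of
the Weil group of `K`, an integral combination of representations `Ind ψ N^{-iτ}`, `ψ` a Hecke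
character (of finite or infinite order) of a finite extension `F` of `K`.  All Artin motives are of
this kind, the motives of Hecke characters, the cohomology of abelian varieties with potential complex
multiplication and of Fermat hypersurfaces, and all their tensor products and twists.

The theorem is about the zeros and poles of `L(M ⊗ M', s)` on the whole line
`Re s = (w + w')/2 + 1`, the edge of absolute convergence, for all `M'` and all heights together.  Let
the dual of `κ` be a part of `M`, for example the largest one, or zero.  If it is the largest one, then
a pole is expected exactly where the intertwining number `h` of `κ` and `ρ N^{-iτ}` is positive, the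
expected order being `-h`, and there should be no zero on the line.

The definitions are in `Pool.Agent.X298.HC.Defs` (`HeckeChar`), `Pool.Agent.X298.HC.BC`,
`Pool.Agent.X298.HC.MDefs` (`Mono`, `Virt`: virtual representations, `Virt.inter`: intertwining
numbers by Mackey's formula) and `Pool.Agent.X298.HC.GDefs`.
-/

set_option autoImplicit false

namespace Pool.Agent.Results.MP_148101_nt.PotentiallyAbelianTensors

open NumberField IsDedekindDomain Filter Topology Polynomial Pool.Agent.X298.HC

/-- **The edge line for tensor products with motives with potentially abelian cohomology.**  Let `M` be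
a motive over a number field `K`, let the dual of `κ` be a part of `M`, and let `R` be the square of the
dimension of the rest `M₀`, or the order of the pole of `L(M₀ ⊗ M₀^∨, s)` at `s = 1` (`RestOf`).

0. For `M'`, `τ` as above the norm `⟨ρ N^{-iτ}, ρ N^{-iτ}⟩` is between `0` and `(dim M')²`.

1. (`TensorGram`)  For finitely many pairs `(M'_k, τ_k)` and real `c_k`, with `h_k` as above and `q_kl` the
intertwining numbers of the `ρ_k N^{-iτ_k}`, the orders `m_k` of `L(M ⊗ M'_k, s)` at
`(w + w'_k)/2 + 1 + iτ_k` satisfy `(∑ c_k (m_k + h_k))² ≤ R ∑ c_k c_l q_kl`, if there are continuations;
without any continuation the same holds, up to `η`, for `log |L(M ⊗ M'_k, · + ε)| / log(1/ε)` instead of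
`-m_k`, for all small `ε > 0`.

2. (`TensorExceptional`)  For all `r` and `k ≥ 1` there are at most `k² r R` exceptional pairs `(M'_s, τ_s)`
such that for all pairs `(M', τ)` with `ρ N^{-iτ}` of norm at most `r` and orthogonal to the
`ρ_s N^{-iτ_s}` the order of `L(M ⊗ M', s)` at `(w + w')/2 + 1 + iτ` is exactly `-h`, if it exists, and in
any case the quotient of logarithms differs from `h` by less than `1/k` for arbitrarily small `ε > 0`.

3. (`TensorMonomial`)  If all `L(M ⊗ π, s)`, `π` monomial and irreducible, have continuations to the
edge, then there is a set of at most `R` representations such that the order of `L(M ⊗ π, s)` is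
`-⟨κ, π⟩` for every monomial irreducible `π` not in the set, and that of `L(M ⊗ M', s)` is `-h` for all
`(M', τ)` with `ρ N^{-iτ}` composed of such `π`. -/
theorem result {K : Type} [Field K] [NumberField K] (M : PureMotive K) (κ : Virt K) (R : ℕ)
    (hR : RestOf M κ R) :
    (∀ D : TensorData M, 0 ≤ D.rep.inter D.rep ∧ D.rep.inter D.rep ≤ (D.M'.rank : ℤ) ^ 2) ∧
    TensorGram M R κ ∧
    (∀ r k : ℕ, 1 ≤ k → TensorExceptional M R κ r k) ∧
    (ContinuationsOf M → TensorMonomial M R κ) :=
  ⟨tensor_norm, tensor_gram hR, fun r k hk => tensor_exceptional hR r k hk, tensor_monomial hR⟩

end Pool.Agent.Results.MP_148101_nt.PotentiallyAbelianTensors
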