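import Pool.Agent.X280.HL.Main

/-!
# Twisted L-functions of hypersurfaces on rectangles at the edge of absolute convergence

`c` runs through the coefficient vectors of the forms of degree `d` in `n + 1` variables with integer
coefficients of absolute value at most `H`; `M_c` is the motive of the primitive part of `H^{n-1}` of the
hypersurface `form c = 0` in `ℙⁿ`, pure of weight `i = n - 1`, and `α p j` are the eigenvalues of
Frobenius on it (`IsFrob`).  The numbers `β p k`, `k < r`, are the eigenvalues of Frobenius of an Artin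
representation `ρ` of dimension `r` (a Dirichlet character for `r = 1`); more generally any complex numbers
of absolute value at most `1`.  `LT α β s` is the Euler product of `L(M_c ⊗ ρ, s)`, absolutely convergent
for `Re s > (n + 1) / 2 = i / 2 + 1`.
-/

set_option autoImplicit false

namespace Pool.Agent.Results.MP_148101_nt.TwistedHypersurfaces

open Pool.Agent.Y722.HS Pool.Agent.X280.HL

/-- Part 1: the supremum of `|log |L(M_c ⊗ ρ, s)||` over the rectangle
`(n + 1) / 2 + 1 / log H ≤ Re s ≤ (n + 1) / 2 + 1`, `|Im s| ≤ T` is bounded in mean square over all forms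
of height at most `H` (the point `ε c + i τ c` may be chosen for every form).  The constant depends on
`n`, `d` and `b` only.  Part 2: for all forms up to a proportion `δ`, the bound holds on the whole
rectangle. -/
theorem result (n d b : ℕ) (hn : 1 ≤ n) (hd : 1 ≤ d) : ∃ C : ℝ, ∀ (r : ℕ) (β : ℕ → Fin r → ℂ),
    (∀ p : ℕ, p.Prime → ∀ k, ‖β p k‖ ≤ 1) → ∀ (H : ℕ) (T : ℝ), 2 ≤ H → 0 ≤ T →
    (∀ S ⊆ box (Mon n d) H, ∀ (α : (Mon n d → ℤ) → ℕ → Fin b → ℂ) (ε τ : (Mon n d → ℤ) → ℝ),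
      (∀ c ∈ S, IsFrob b c (α c)) →
      (∀ c ∈ S, 1 / Real.log H ≤ ε c ∧ ε c ≤ 1) → (∀ c ∈ S, |τ c| ≤ T) →
      (∀ c ∈ S, LT (α c) β (((n : ℂ) + 1) / 2 + ε c + τ c * Complex.I) ≠ 0) ∧
      ∑ c ∈ S, Real.log ‖LT (α c) β (((n : ℂ) + 1) / 2 + ε c + τ c * Complex.I)‖ ^ 2 ≤
        C * r ^ 2 * (1 + T) * (box (Mon n d) H).card) ∧
    ∀ δ : ℝ, 0 < δ → ∃ E ⊆ box (Mon n d) H, (E.card : ℝ) ≤ δ * (box (Mon n d) H).card ∧
      ∀ c ∈ box (Mon n d) H \ E, ∀ α : ℕ → Fin b → ℂ, IsFrob b c α → ∀ ε τ : ℝ,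
        1 / Real.log H ≤ ε → ε ≤ 1 → |τ| ≤ T →
        LT α β (((n : ℂ) + 1) / 2 + ε + τ * Complex.I) ≠ 0 ∧
        Real.log ‖LT α β (((n : ℂ) + 1) / 2 + ε + τ * Complex.I)‖ ^ 2 ≤
          C * r ^ 2 * (1 + T) / δ :=
  ⟨KT n d b, fun r β hβ H T hH hT =>
    ⟨fun S hS α ε τ hα hε hτ => mean_square n d b hn hd r β hβ H hH T hT S hS α ε τ hα hε hτ,
      fun δ hδ => almost_all n d b hn hd r β hβ H hH T hT δ hδ⟩⟩

end Pool.Agent.Results.MP_148101_nt.TwistedHypersurfaces
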